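import Mathlib
import Pool.Agent.Zombie.Defs
import Pool.Agent.Zombie.Main

/-!
# The zombie number of the toroidal grid is `O(n^{3/2})`
-/

namespace Pool.Agent.Results.MP_34e428_co.ThreeHalves

open Pool.Agent.Zombie

/-- For every `n ≥ 3`, `z(T_n)` is attained (`s_k(T_n) ≤ 1/2` for `k = z(T_n)`), and
`z(T_n) ≤ 129 n √n`. -/
theorem result (n : ℕ) [NeZero n] (hn : 3 ≤ n) :
    winProb (torus n) (zombieNumber (torus n)) ≤ 1 / 2 ∧
    (zombieNumber (torus n) : ℝ) ≤ 129 * n * Real.sqrt n := by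
  obtain ⟨k, hk1, hk2⟩ := exists_winProb_le hn
  refine ⟨Nat.sInf_mem (s := {k | winProb (torus n) k ≤ 1 / 2}) ⟨k, hk2⟩, ?_⟩
  have h : zombieNumber (torus n) ≤ k := Nat.sInf_le hk2
  have h' : (zombieNumber (torus n) : ℝ) ≤ k := by exact_mod_cast h
  exact h'.trans hk1

end Pool.Agent.Results.MP_34e428_co.ThreeHalves
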